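import Pool.Agent.H97Z.JE.Defs

set_option autoImplicit false
set_option maxHeartbeats 400000

open MeasureTheory Filter Finset
open scoped BigOperators Topology BoundedContinuousFunction

noncomputable section

namespace Pool.Agent.H476Z.JE

open Pool.Agent.H97Z.JE

section NatExt

variable {K : Type} [TopologicalSpace K] [CompactSpace K] [TopologicalSpace.MetrizableSpace K]
  [SecondCountableTopology K] [MeasurableSpace K] [BorelSpace K]
  {X : Type} [MeasurableSpace X]

/-- The two-sided names, with the origin moved `m` steps into the past. -/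
def Phi (T : X → X) (F : X → K) (m : ℕ) (x : X) : ℤ → K := fun j => F (T^[(j + m).toNat] x)

theorem Phi_meas {T : X → X} {F : X → K} (hT : Measurable T) (hF : Measurable F) (m : ℕ) :
    Measurable (Phi T F m) :=
  measurable_pi_lambda _ fun _ => hF.comp (hT.iterate _)

/-- The shift. -/
def sh (a : ℤ) (y : ℤ → K) : ℤ → K := fun j => y (j + a)

/-- Freezing the coordinates below `-m`. -/
def fr (m : ℕ) (y : ℤ → K) : ℤ → K := fun j => y (max j (-(m : ℤ)))

theorem sh_cont (a : ℤ) : Continuous (sh a : (ℤ → K) → ℤ → K) :=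
  continuous_pi fun _ => continuous_apply _

theorem fr_cont (m : ℕ) : Continuous (fr m : (ℤ → K) → ℤ → K) :=
  continuous_pi fun _ => continuous_apply _

theorem fr_Phi (T : X → X) (F : X → K) {m0 m : ℕ} (h : m0 ≤ m) (x : X) :
    fr m0 (Phi T F m x) = Phi T F m0 (T^[m - m0] x) := by
  funext j
  simp only [fr, Phi]
  rw [← Function.iterate_add_apply]
  congr 2
  omega

theorem sh_Phi (T : X → X) (F : X → K) (a : ℤ) {m : ℕ} (h : 0 ≤ (m : ℤ) + a) (x : X) :
    sh a (Phi T F m x) = Phi T F ((m : ℤ) + a).toNat x := by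
  funext j
  simp only [sh, Phi]
  congr 2
  omega

theorem fr_tendsto (y : ℤ → K) : Tendsto (fun m : ℕ => fr m y) atTop (𝓝 y) := by
  rw [tendsto_pi_nhds]
  intro j
  refine tendsto_const_nhds.congr' ?_
  filter_upwards [eventually_ge_atTop j.natAbs] with m hm
  simp only [fr]
  congr 1
  omega

theorem nat_ext (μ : Measure X) [IsProbabilityMeasure μ] {T : X → X} (hT : MeasurePreserving T μ μ)
    {F : X → K} (hF : Measurable F) :
    ∃ ν : Measure (ℤ → K), IsProbabilityMeasure ν ∧ (∀ a, MeasurePreserving (sh a) ν ν) ∧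
      ∀ φ : (ℤ → K) →ᵇ ℝ, ∫ y, φ (fr 0 y) ∂ν = ∫ x, φ (Phi T F 0 x) ∂μ := by
  have hm := Phi_meas hT.measurable hF
  let νs : ℕ → ProbabilityMeasure (ℤ → K) := fun m =>
    ⟨μ.map (Phi T F m), Measure.isProbabilityMeasure_map (hm m).aemeasurable⟩
  have hint : ∀ (m : ℕ) (φ : (ℤ → K) →ᵇ ℝ),
      ∫ y, φ y ∂(νs m : Measure (ℤ → K)) = ∫ x, φ (Phi T F m x) ∂μ := fun m φ =>
    integral_map (hm m).aemeasurable φ.continuous.aestronglyMeasurable
  obtain ⟨ν, -, hν⟩ := isCompact_univ.ultrafilter_le_nhds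
    (Ultrafilter.map νs (hyperfilter ℕ)) (by simp)
  have hlim : Tendsto νs (hyperfilter ℕ) (𝓝 ν) := hν
  rw [ProbabilityMeasure.tendsto_iff_forall_integral_tendsto] at hlim
  have hle : (hyperfilter ℕ : Filter ℕ) ≤ atTop := by
    rw [← Nat.cofinite_eq_atTop]; exact hyperfilter_le_cofinite
  have h1 : ∀ (m0 : ℕ) (φ : (ℤ → K) →ᵇ ℝ),
      ∫ y, φ (fr m0 y) ∂(ν : Measure (ℤ → K)) = ∫ x, φ (Phi T F m0 x) ∂μ := by
    intro m0 φ
    have a1 := hlim (φ.compContinuous ⟨fr m0, fr_cont m0⟩)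
    refine tendsto_nhds_unique a1 (tendsto_const_nhds.congr' ?_)
    filter_upwards [hle (eventually_ge_atTop m0)] with m hm0
    rw [hint]
    simp only [BoundedContinuousFunction.compContinuous_apply, ContinuousMap.coe_mk,
      fr_Phi T F hm0]
    have a2 := (hT.iterate (m - m0)).map_eq
    conv_lhs => rw [← a2]
    rw [integral_map (hT.iterate _).measurable.aemeasurable]
    exact (φ.continuous.measurable.comp (hm m0)).aestronglyMeasurable
  have h2 : ∀ φ : (ℤ → K) →ᵇ ℝ, Tendsto (fun m : ℕ => ∫ x, φ (Phi T F m x) ∂μ) atTop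
      (𝓝 (∫ y, φ y ∂(ν : Measure (ℤ → K)))) := by
    intro φ
    simp_rw [← h1]
    refine tendsto_integral_of_dominated_convergence (fun _ => ‖φ‖) (fun m => ?_)
      (integrable_const _) (fun m => Eventually.of_forall fun y => φ.norm_coe_le_norm _)
      (Eventually.of_forall fun y => (φ.continuous.tendsto y).comp (fr_tendsto y))
    exact (φ.continuous.comp (fr_cont m)).aestronglyMeasurable
  refine ⟨ν, inferInstance, fun a => ⟨(sh_cont a).measurable, ?_⟩, h1 0⟩
  haveI : IsProbabilityMeasure ((ν : Measure (ℤ → K)).map (sh a)) :=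
    Measure.isProbabilityMeasure_map (sh_cont a).measurable.aemeasurable
  refine ext_of_forall_integral_eq_of_IsFiniteMeasure fun φ => ?_
  rw [integral_map (sh_cont a).measurable.aemeasurable φ.continuous.aestronglyMeasurable]
  have a1 := h2 (φ.compContinuous ⟨sh a, sh_cont a⟩)
  have a2 : Tendsto (fun m : ℕ => ((m : ℤ) + a).toNat) atTop atTop := by
    refine tendsto_atTop.mpr fun b => ?_
    filter_upwards [eventually_ge_atTop (b + a.natAbs)] with m hm
    omega
  refine tendsto_nhds_unique a1 (((h2 φ).comp a2).congr' ?_)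
  filter_upwards [eventually_ge_atTop a.natAbs] with m hm0
  simp only [BoundedContinuousFunction.compContinuous_apply, ContinuousMap.coe_mk,
    Function.comp_apply, sh_Phi T F a (show 0 ≤ (m : ℤ) + a by omega)]

end NatExt

theorem expect_eq (N : ℕ) (g : ℕ → ℂ) :
    𝔼 n ∈ Icc 1 N, g n = (1 / (N : ℂ)) * ∑ n ∈ Icc 1 N, g n := by
  rw [Finset.expect_eq_sum_div_card]
  simp [div_eq_inv_mul]

theorem av_norm {k : ℕ} {X : Type} [MeasurableSpace X] (S : Sys X) (c : Fin k → ℝ)
    (f : Fin k → X → ℂ) (hf : ∀ i x, ‖f i x‖ ≤ 1) (N : ℕ) (x : X) : ‖Av S c 1 f N x‖ ≤ 1 := by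
  unfold Av
  rw [expect_eq, norm_mul]
  have h1 : ‖∑ n ∈ Icc 1 N, ∏ i, (1 : Fin k → ℂ) i ^ aa (c i) n * f i (S.T (aa (c i) n) x)‖ ≤ N := by
    refine (norm_sum_le _ _).trans ?_
    refine (Finset.sum_le_card_nsmul _ _ 1 fun n _ => ?_).trans (by simp)
    rw [norm_prod]
    exact Finset.prod_le_one (fun i _ => norm_nonneg _) fun i _ => by simpa using hf i _
  rcases Nat.eq_zero_or_pos N with rfl | hN
  · simp
  · have hN' : (0 : ℝ) < N := by exact_mod_cast hN
    rw [norm_div, norm_one, Complex.norm_natCast, one_div, inv_mul_le_iff₀ hN', mul_one]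
    exact h1

theorem conv_top (hc : S_conv) (hd : S_dec) {k : ℕ} {c : Fin k → ℝ} (hok : Ok c) (Y : Type)
    [TopologicalSpace Y] [CompactSpace Y] [TopologicalSpace.MetrizableSpace Y]
    [MeasurableSpace Y] [BorelSpace Y] (S : Sys Y) (hS : ∀ m, Continuous (S.T m))
    (f : Fin k → Y → ℂ) (hf : ∀ i, B1 (f i)) :
    Tendsto (fun p : ℕ × ℕ => ∫ x, ‖Av S c 1 f p.1 x - Av S c 1 f p.2 x‖ ^ 2 ∂S.μ)
      (atTop ×ˢ atTop) (𝓝 0) := by
  obtain ⟨κ, hκ, hb, hae⟩ := hd Y S hS
  have hmeasA : ∀ N, Measurable (Av S c 1 f N) := by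
    intro N
    unfold Av
    simp_rw [expect_eq]
    refine measurable_const.mul (Finset.measurable_fun_sum _ fun n _ => ?_)
    exact Finset.measurable_fun_prod _ fun i _ =>
      measurable_const.mul ((hf i).1.comp (S.mp _).measurable)
  have hmeas : ∀ p : ℕ × ℕ, Measurable fun x => ‖Av S c 1 f p.1 x - Av S c 1 f p.2 x‖ ^ 2 :=
    fun p => ((hmeasA p.1).sub (hmeasA p.2)).norm.pow_const 2
  have hbd : ∀ (p : ℕ × ℕ) x, ‖‖Av S c 1 f p.1 x - Av S c 1 f p.2 x‖ ^ 2‖ ≤ 4 := by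
    intro p x
    have a1 := av_norm S c f (fun i => (hf i).2) p.1 x
    have a2 := av_norm S c f (fun i => (hf i).2) p.2 x
    have a3 := norm_sub_le (Av S c 1 f p.1 x) (Av S c 1 f p.2 x)
    have a4 := norm_nonneg (Av S c 1 f p.1 x - Av S c 1 f p.2 x)
    rw [norm_pow, norm_norm]
    nlinarith
  have he : ∀ p : ℕ × ℕ, ∫ x, ‖Av S c 1 f p.1 x - Av S c 1 f p.2 x‖ ^ 2 ∂S.μ =
      ∫ y, ∫ x, ‖Av S c 1 f p.1 x - Av S c 1 f p.2 x‖ ^ 2 ∂(κ y) ∂S.μ := by
    intro p
    have hi : Integrable (fun x => ‖Av S c 1 f p.1 x - Av S c 1 f p.2 x‖ ^ 2) S.μ :=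
      Integrable.of_bound (hmeas p).aestronglyMeasurable 4 (Eventually.of_forall (hbd p))
    rw [← hb, Measure.comp_eq_comp_const_apply] at hi
    have := ProbabilityTheory.Kernel.integral_comp hi
    rw [← Measure.comp_eq_comp_const_apply, hb] at this
    simpa using this
  simp_rw [he]
  have h0 : (0 : ℝ) = ∫ _ : Y, (0 : ℝ) ∂S.μ := by simp
  rw [h0]
  refine tendsto_integral_filter_of_dominated_convergence (fun _ => 4)
    (Eventually.of_forall fun p => ?_) (Eventually.of_forall fun p => Eventually.of_forall fun y => ?_)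
    (integrable_const _) ?_
  · exact ((hmeas p).stronglyMeasurable.integral_kernel (κ := κ)).aestronglyMeasurable
  · simpa using norm_integral_le_of_norm_le_const (μ := κ y) (Eventually.of_forall (hbd p))
  · filter_upwards [hae] with y hy
    obtain ⟨S', h1, h2, h3⟩ := hy
    have := hc k c hok Y S' h3 f hf
    rw [h1] at this
    simpa only [Av, h2] using this

theorem cauchy_norm (hc : S_conv) (hd : S_dec) {k : ℕ} {c : Fin k → ℝ} (hok : Ok c)
    {X : Type} [MeasurableSpace X] (μ : Measure X) [IsProbabilityMeasure μ] {T : X → X}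
    (hT : MeasurePreserving T μ μ) (f : Fin k → X → ℝ) (hf : ∀ i, Measurable (f i))
    (hb : ∀ i x, |f i x| ≤ 1) :
    Tendsto (fun p : ℕ × ℕ => ∫ x,
      ((1 / (p.1 : ℝ)) * ∑ n ∈ Icc 1 p.1, ∏ i, f i (T^[aa (c i) n] x) -
        (1 / (p.2 : ℝ)) * ∑ n ∈ Icc 1 p.2, ∏ i, f i (T^[aa (c i) n] x)) ^ 2 ∂μ)
      (atTop ×ˢ atTop) (𝓝 0) := by
  let F : X → Fin k → Set.Icc (-1 : ℝ) 1 := fun x i => ⟨f i x, abs_le.mp (hb i x)⟩
  have hF : Measurable F := measurable_pi_lambda _ fun i => (hf i).subtype_mk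
  obtain ⟨ν, hν, hsh, hint⟩ := nat_ext μ hT hF
  let S : Sys (ℤ → Fin k → Set.Icc (-1 : ℝ) 1) :=
    { μ := ν
      prob := hν
      T := sh
      zero := fun y => by funext j; simp [sh]
      add := fun a b y => by funext j; simp [sh, add_assoc]
      mp := hsh }
  let g : Fin k → (ℤ → Fin k → Set.Icc (-1 : ℝ) 1) → ℂ := fun i y => ((y 0 i : ℝ) : ℂ)
  have hgc : ∀ i, Continuous (g i) := fun i => by fun_prop
  have hg : ∀ i, B1 (g i) := fun i => ⟨(hgc i).measurable, fun y => by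
    simp only [g, Complex.norm_real, Real.norm_eq_abs]
    exact abs_le.mpr (y 0 i).2⟩
  have key := conv_top hc hd hok _ S (fun m => sh_cont m) g hg
  refine key.congr fun p => ?_
  have hA : ∀ N, Continuous (Av S c 1 g N) := by
    intro N
    unfold Av
    simp_rw [expect_eq]
    refine continuous_const.mul (continuous_finset_sum _ fun n _ => ?_)
    exact continuous_finset_prod _ fun i _ => continuous_const.mul ((hgc i).comp (sh_cont _))
  let φ : (ℤ → Fin k → Set.Icc (-1 : ℝ) 1) →ᵇ ℝ := BoundedContinuousFunction.mkOfCompact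
    ⟨fun y => ‖Av S c 1 g p.1 y - Av S c 1 g p.2 y‖ ^ 2, ((hA p.1).sub (hA p.2)).norm.pow 2⟩
  have h1 := hint φ
  have e1 : ∀ N y, Av S c 1 g N (fr 0 y) = Av S c 1 g N y := by
    intro N y
    simp [Av, S, g, sh, fr]
  have e2 : ∀ N x, Av S c 1 g N (Phi T F 0 x) =
      (((1 / (N : ℝ)) * ∑ n ∈ Icc 1 N, ∏ i, f i (T^[aa (c i) n] x) : ℝ) : ℂ) := by
    intro N x
    unfold Av
    rw [expect_eq]
    simp [S, g, sh, Phi, F]
  simp only [φ, BoundedContinuousFunction.mkOfCompact_apply, ContinuousMap.coe_mk, e1, e2] at h1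
  refine h1.trans (integral_congr_ae (Eventually.of_forall fun x => ?_))
  simp only
  rw [← Complex.ofReal_sub, Complex.norm_real, Real.norm_eq_abs, sq_abs]

theorem lim_of_cauchy {X : Type} [MeasurableSpace X] (μ : Measure X) (a : ℕ → X → ℝ)
    (ha : ∀ N, MemLp (a N) 2 μ)
    (h : Tendsto (fun p : ℕ × ℕ => ∫ x, (a p.1 x - a p.2 x) ^ 2 ∂μ) (atTop ×ˢ atTop) (𝓝 0)) :
    ∃ g : X → ℝ, MemLp g 2 μ ∧
      Tendsto (fun N : ℕ => eLpNorm (fun x => a N x - g x) 2 μ) atTop (𝓝 0) := by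
  have hcau : CauchySeq fun N => (ha N).toLp (a N) := by
    rw [cauchySeq_iff_tendsto_dist_atTop_0, ← prod_atTop_atTop_eq]
    have h2 := h.sqrt
    rw [Real.sqrt_zero] at h2
    refine h2.congr fun p => ?_
    rw [dist_eq_norm, ← Real.sqrt_sq (norm_nonneg _), ← real_inner_self_eq_norm_sq, L2.inner_def]
    congr 1
    refine integral_congr_ae ?_
    filter_upwards [Lp.coeFn_sub ((ha p.1).toLp (a p.1)) ((ha p.2).toLp (a p.2)),
      (ha p.1).coeFn_toLp, (ha p.2).coeFn_toLp] with x h1 h2 h3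
    rw [h1, Pi.sub_apply, h2, h3, real_inner_self_eq_norm_sq, Real.norm_eq_abs, sq_abs]
  obtain ⟨G, hG⟩ := cauchySeq_tendsto_of_complete hcau
  refine ⟨G, Lp.memLp G, ?_⟩
  have := (Lp.tendsto_Lp_iff_tendsto_eLpNorm'' a ha G (Lp.memLp G)).mp (by simpa using hG)
  exact this

theorem fin03779 (hc : S_conv) (hd : S_dec) :
    ∀ (k : ℕ) (c : Fin k → ℝ), Function.Injective c →
      (∀ i, 0 < c i ∧ ∀ m : ℤ, c i ≠ (m : ℝ)) →
      ∀ (X : Type) [MeasurableSpace X] (μ : MeasureTheory.Measure X)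
        [MeasureTheory.IsProbabilityMeasure μ] (T : X → X),
        MeasureTheory.MeasurePreserving T μ μ →
        ∀ f : Fin k → X → ℝ, (∀ i, Measurable (f i)) →
          (∀ i, ∃ C : ℝ, ∀ x, |f i x| ≤ C) →
          ∃ g : X → ℝ, MeasureTheory.MemLp g 2 μ ∧
            Filter.Tendsto
              (fun N : ℕ => MeasureTheory.eLpNorm
                (fun x => (1 / (N : ℝ)) * ∑ n ∈ Finset.Icc 1 N,
                    ∏ i : Fin k, f i (T^[⌊(n : ℝ) ^ c i⌋₊ ^ 2] x) - g x) 2 μ)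
              Filter.atTop (nhds 0) := by
  intro k c hinj hpos X _ μ _ T hT f hf hb
  choose C hC using hb
  let D : Fin k → ℝ := fun i => max (C i) 1
  have hD : ∀ i, 0 < D i := fun i => lt_of_lt_of_le one_pos (le_max_right _ _)
  have hfD : ∀ i x, |f i x| ≤ D i := fun i x => (hC i x).trans (le_max_left _ _)
  have key := cauchy_norm hc hd (c := c) ⟨hinj, hpos⟩ μ hT (fun i x => f i x / D i)
    (fun i => (hf i).div_const _) (fun i x => by
      rw [abs_div, abs_of_pos (hD i), div_le_one (hD i)]; exact hfD i x)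
  refine lim_of_cauchy μ (fun N x => (1 / (N : ℝ)) * ∑ n ∈ Finset.Icc 1 N,
    ∏ i : Fin k, f i (T^[⌊(n : ℝ) ^ c i⌋₊ ^ 2] x)) (fun N => ?_) ?_
  · have h1 : ∀ n : ℕ, MemLp (fun x => ∏ i : Fin k, f i (T^[⌊(n : ℝ) ^ c i⌋₊ ^ 2] x)) 2 μ := by
      intro n
      have hm : Measurable fun x => ∏ i : Fin k, f i (T^[⌊(n : ℝ) ^ c i⌋₊ ^ 2] x) :=
        Finset.measurable_fun_prod _ fun i _ => (hf i).comp (hT.measurable.iterate _)
      refine MemLp.of_bound hm.aestronglyMeasurable (∏ i, D i) (Eventually.of_forall fun x => ?_)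
      rw [norm_prod]
      exact Finset.prod_le_prod (fun i _ => norm_nonneg _) fun i _ => hfD i _
    have h2 := memLp_finset_sum (Finset.Icc 1 N) fun n _ => h1 n
    exact h2.const_mul (1 / (N : ℝ))
  · have h2 := key.const_mul ((∏ i, D i) ^ 2)
    rw [mul_zero] at h2
    refine h2.congr fun p => ?_
    rw [← integral_const_mul]
    refine integral_congr_ae (Eventually.of_forall fun x => ?_)
    have hP : (∏ i, D i) ≠ 0 := Finset.prod_ne_zero_iff.mpr fun i _ => (hD i).ne'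
    simp only [aa, fl, Finset.prod_div_distrib, ← Finset.sum_div]
    field_simp

end Pool.Agent.H476Z.JE
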